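import Pool.Agent.Helper96.CT.Stmts2

/-! Sheet CT, row HC. -/

set_option autoImplicit false

namespace Pool.Agent.Helper98.CT

open SimpleGraph Pool.Agent.Helper96.CT

theorem st_HC : ST_HC := by
  classical
  intro V _ F H m hF hm hmV hH hMD
  by_cases hl : ∃ x ∈ H, ∃ y ∈ H, ∃ z ∈ H, x ≠ y ∧ ¬ F.Adj x y ∧ F.Adj x z ∧ F.Adj z y
  · exact Or.inl hl
  · right
    have hcl : ∀ x ∈ H, ∀ y ∈ H, ∀ z ∈ H, x ≠ y → F.Adj x z → F.Adj z y → F.Adj x y := by
      intro x hx y hy z hz hxy h1 h2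
      by_contra h3
      exact hl ⟨x, hx, y, hy, z, hz, hxy, h3, h1, h2⟩
    obtain ⟨v₀, hv₀⟩ := hH
    obtain ⟨I, hIH, hIadj, hIc⟩ := hMD v₀ hv₀
    obtain ⟨J, hJI, hJc⟩ := Finset.exists_subset_card_eq hIc
    have hvJ : v₀ ∉ J := fun h => F.loopless.irrefl v₀ (hIadj v₀ (hJI h))
    have hKc : (insert v₀ J).card = m - 1 := by
      rw [Finset.card_insert_of_notMem hvJ, hJc]
      omega
    refine ⟨insert v₀ J, hKc, ?_, ?_⟩
    · intro a ha b hb hab
      rcases Finset.mem_insert.1 ha with ha | ha <;> rcases Finset.mem_insert.1 hb with hb | hb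
      · exact absurd (ha.trans hb.symm) hab
      · rw [ha]
        exact hIadj b (hJI hb)
      · rw [hb]
        exact (hIadj a (hJI ha)).symm
      · exact hcl a (hIH (hJI ha)) b (hIH (hJI hb)) v₀ hv₀ hab (hIadj a (hJI ha)).symm
          (hIadj b (hJI hb))
    · have hex : ∃ w, w ∉ insert v₀ J := by
        by_contra h
        push Not at h
        have : (insert v₀ J) = Finset.univ := Finset.eq_univ_iff_forall.2 h
        rw [this, Finset.card_univ] at hKc
        omega
      obtain ⟨w, hw⟩ := hex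
      obtain ⟨p⟩ := hF.preconnected v₀ w
      obtain ⟨d, -, hd1, hd2⟩ := p.exists_boundary_dart ((insert v₀ J : Finset V) : Set V)
        (by simp) (by simpa using hw)
      exact ⟨d.fst, by simpa using hd1, d.snd, by simpa using hd2, d.adj⟩

end Pool.Agent.Helper98.CT
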